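import Pool.Agent.Lib.MP_9177b7_ag.J.DynU
import Pool.Agent.Lib.MP_9177b7_ag.J.Kap
import Pool.Agent.Lib.MP_9177b7_ag.J.FinalN
import Pool.Agent.Lib.MP_9177b7_ag.J.Weak

/-!
Equidistribution of Galois orbits of special points on powers of the modular curve `Y(1)`, for
special points whose CM fields lie in a finite set.  The conductors are arbitrary.
-/

open MeasureTheory Filter Topology Set
open scoped UpperHalfPlane BoundedContinuousFunction

noncomputable section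

namespace Pool.Agent.Lib.MP_9177b7_ag.Old.CMProducts

/-- Klein's modular invariant `j = E₄ ^ 3 / Δ`, which identifies `Y(1)` with `ℂ`. -/
def j (τ : ℍ) : ℂ := ModularForm.E₄ τ ^ 3 / ModularForm.discriminant τ

/-- The normalised hyperbolic measure of `Y(1)`, in the coordinate `j`. -/
def muY : Measure ℂ :=
  (((volume : Measure ℍ) ModularGroup.fd)⁻¹ • (volume : Measure ℍ).restrict ModularGroup.fd).map j

/-- CM points of the upper half plane. -/
def IsCM (z : ℍ) : Prop := ∃ a b c : ℤ, a ≠ 0 ∧ a * (z : ℂ) ^ 2 + b * z + c = 0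

/-- The image in `Y(1) × Y(1)` of the graph of the Möbius transformation of a rational matrix. -/
def modCurve (g : Matrix (Fin 2) (Fin 2) ℚ) : Set (ℂ × ℂ) :=
  {p | ∃ z z' : ℍ, (z' : ℂ) = (g 0 0 * z + g 0 1) / (g 1 0 * z + g 1 1) ∧ p = (j z, j z')}

/-- The special hypersurfaces of `Y(1) ^ n`: one coordinate is a fixed CM point, or two
coordinates lie on a fixed modular curve. -/
def SpecialHyp {n : ℕ} (Z : Set (Fin n → ℂ)) : Prop :=
  (∃ (i : Fin n) (z : ℍ), IsCM z ∧ Z = {x | x i = j z}) ∨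
    ∃ (i i' : Fin n) (g : Matrix (Fin 2) (Fin 2) ℚ), i ≠ i' ∧ 0 < g.det ∧
      Z = {x | (x i, x i') ∈ modCurve g}

/-- `z` lies in the field generated by the square root of `-d`. -/
def InField (d : ℕ) (z : ℍ) : Prop := ∃ x y : ℚ, (z : ℂ) = x + y * (Complex.I * Real.sqrt d)

/-- The orbit of a point under the field automorphisms of `ℂ`. -/
def galOrbit {n : ℕ} (x : Fin n → ℂ) : Set (Fin n → ℂ) :=
  {y | ∃ σ : ℂ ≃+* ℂ, y = fun i => σ (x i)}

/-- The mean of a function over the orbit. -/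
def orbitMean {n : ℕ} (x : Fin n → ℂ) (φ : (Fin n → ℂ) → ℝ) : ℝ :=
  (∑ᶠ y ∈ galOrbit x, φ y) / (galOrbit x).ncard

open Pool.Agent.Lib.MP_9177b7_ag in
theorem result (n B : ℕ) (τ : ℕ → Fin n → ℍ) (hK : ∀ m i, ∃ d ≤ B, InField d (τ m i))
    (hs : ∀ Z, SpecialHyp Z → ∀ᶠ m in atTop, (fun i => j (τ m i)) ∉ Z) :
    (∀ m, (galOrbit fun i => j (τ m i)).Finite) ∧ ∀ φ : (Fin n → ℂ) →ᵇ ℝ,
      Tendsto (fun m => orbitMean (fun i => j (τ m i)) φ) atTop
        (𝓝 (∫ x, φ x ∂(Measure.pi fun _ => muY))) :=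
  J.finalN (J.dynN J.lat (J.kap J.loc) J.split_stmt J.dynB J.dynU) J.weak (Fin n) B τ hK
    (fun i z hz => hs _ (Or.inl ⟨i, z, hz, rfl⟩))
    fun i i' h g hg => hs _ (Or.inr ⟨i, i', g, h, hg, rfl⟩)

end Pool.Agent.Lib.MP_9177b7_ag.Old.CMProducts
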